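import Pool.Agent.Lib.helper31.SATc

set_option autoImplicit false

namespace Pool.Agent.Results.MP_a5725d_an.Characterization

open Complex Metric Set Filter Topology MeasureTheory

/-- the `k`-th Taylor coefficient at `0` -/
noncomputable def coef (g : ℂ → ℂ) (k : ℕ) : ℂ := iteratedDeriv k g 0 / (k.factorial : ℂ)

/-- the Hardy space: analytic on the disc with square summable Taylor coefficients -/
def H2 (f : ℂ → ℂ) : Prop :=
  DifferentiableOn ℂ f (ball 0 1) ∧ Summable fun k => ‖coef f k‖ ^ 2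

/-- the `k`-th coefficient of `(M_z^*)^n C_φ M_z^n f`, that is the `(n + k)`-th Taylor
coefficient of `C_φ (z^n f) = φ^n * (f ∘ φ)` -/
noncomputable def step (φ f : ℂ → ℂ) (n k : ℕ) : ℂ := coef (fun z => φ z ^ n * f (φ z)) (n + k)

/-- `C_φ` is strongly asymptotically Toeplitz: for each `f` in the Hardy space the sequence
`(M_z^*)^n C_φ M_z^n f` converges in the norm of the Hardy space -/
def SAT (φ : ℂ → ℂ) : Prop :=
  ∀ f, H2 f → ∃ b : ℕ → ℂ, Summable (fun k => ‖b k‖ ^ 2) ∧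
    Tendsto (fun n : ℕ => ∑' k : ℕ, ENNReal.ofReal (‖step φ f n k - b k‖ ^ 2)) atTop (𝓝 0)

/-- `|φ|` has radial limit `1` at `exp (i θ)` -/
def Uni (φ : ℂ → ℂ) (θ : ℝ) : Prop :=
  Tendsto (fun r : ℝ => ‖φ (r * exp (θ * I))‖) (𝓝[<] 1) (𝓝 1)

/-- `(1 - |φ (r exp (i θ))|) / (1 - r)` tends to `d` as `r` increases to `1` -/
def Dil (φ : ℂ → ℂ) (θ d : ℝ) : Prop :=
  Tendsto (fun r : ℝ => (1 - ‖φ (r * exp (θ * I))‖) / (1 - r)) (𝓝[<] 1) (𝓝 d)

open Pool.Agent.H31.Hardy Pool.Agent.H31.SAT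

lemma pt {u : ℕ → ℕ → ℂ} {b : ℕ → ℂ}
    (h : Tendsto (fun n : ℕ => ∑' k : ℕ, ENNReal.ofReal (‖u n k - b k‖ ^ 2)) atTop (𝓝 0)) (k : ℕ) :
    Tendsto (fun n => u n k) atTop (𝓝 (b k)) := by
  have h1 : Tendsto (fun n => ENNReal.ofReal (‖u n k - b k‖ ^ 2)) atTop (𝓝 0) :=
    tendsto_of_tendsto_of_tendsto_of_le_of_le tendsto_const_nhds h (fun _ => zero_le)
      fun n => ENNReal.le_tsum (f := fun k => ENNReal.ofReal (‖u n k - b k‖ ^ 2)) k
  have h2 := (ENNReal.tendsto_toReal ENNReal.zero_ne_top).comp h1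
  have h3 : Tendsto (fun n => ‖u n k - b k‖ ^ 2) atTop (𝓝 0) := by
    simpa [Function.comp_def] using h2
  rw [tendsto_iff_norm_sub_tendsto_zero]
  simpa using h3.sqrt

theorem result (φ : ℂ → ℂ) (hd : DifferentiableOn ℂ φ (ball 0 1))
    (hm : MapsTo φ (ball (0 : ℂ) 1) (ball (0 : ℂ) 1)) :
    SAT φ ↔ (∀ z ∈ ball (0 : ℂ) 1, φ z = z) ∨
      ∀ᵐ θ ∂(volume.restrict (Ioc 0 (2 * Real.pi))), Uni φ θ → ∃ d < 1, Dil φ θ d := by
  constructor
  · intro h
    have hq : DifferentiableOn ℂ (fun _ : ℂ => (1 : ℂ)) (ball 0 1) := by fun_prop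
    obtain ⟨b, _, hb⟩ := h (fun _ => 1) ⟨hq, (bdd hq (C := 1) fun _ _ => by simp).1⟩
    have h1 := pt hb
    by_cases hr : ∃ c : ℂ, ‖c‖ = 1 ∧ ∀ z ∈ ball (0 : ℂ) 1, φ z = c * z
    · obtain ⟨c, hc, h2⟩ := hr
      have h3 : ∀ n, step φ (fun _ => 1) n 0 = c ^ n := fun n =>
        (co_shift hd hm hq h2 n 0).trans (by simp [co])
      have h4 := h1 0
      simp only [h3] at h4
      have h5 := ((h4.comp (tendsto_add_atTop_nat 1)).sub h4).norm
      have h6 : ∀ n : ℕ, ‖c ^ (n + 1) - c ^ n‖ = ‖c - 1‖ := fun n => by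
        rw [show c ^ (n + 1) - c ^ n = c ^ n * (c - 1) by ring, norm_mul, norm_pow, hc]
        simp
      simp only [Function.comp, h6, sub_self, norm_zero] at h5
      have h7 : c = 1 := sub_eq_zero.1 (norm_eq_zero.1 (tendsto_const_nhds_iff.1 h5))
      exact Or.inl fun z hz => by rw [h2 z hz, h7, one_mul]
    · have h2 : ∀ k, b k = 0 := fun k => tendsto_nhds_unique (h1 k)
        (by simpa [step, coef] using Pool.Agent.H31.WAT.main φ hd hm hr 0 k)
      refine Or.inr (conv hd hm hr ?_)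
      have h3 := (ENNReal.tendsto_toReal ENNReal.zero_ne_top).comp hb
      refine h3.congr fun n => ?_
      have s := bdd (g := fun z => φ z ^ n * 1) ((hd.pow n).mul hq)
        (G_le hm (q := fun _ => 1) (C := 1) (fun _ _ => by simp) n)
      simp only [Function.comp, h2, sub_zero]
      exact (congrArg ENNReal.toReal (ENNReal.ofReal_tsum_of_nonneg (fun k => by positivity)
        (tl_sum s.1 n)).symm).trans (ENNReal.toReal_ofReal (tl_nonneg _ n))
  · rintro (h | h) f hf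
    · refine ⟨co fun z => f (φ z), littlewood hd hm hf.1 hf.2, ?_⟩
      have h3 : ∀ n k, step φ f n k = co (fun z => f (φ z)) k := fun n k =>
        (co_shift hd hm hf.1 (c := 1) (fun z hz => by rw [h z hz, one_mul]) n k).trans (by simp)
      simp [h3]
    · refine ⟨fun _ => 0, by simp [summable_zero], ?_⟩
      obtain ⟨h1, h2⟩ := tail1 hd hm (g := fun z => f (φ z)) (hf.1.comp hd hm)
        (littlewood hd hm hf.1 hf.2) ((ae_restrict_iff' measurableSet_Ioc).1 h)
      have h3 := ENNReal.tendsto_ofReal h2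
      rw [ENNReal.ofReal_zero] at h3
      refine h3.congr fun n => ?_
      simp only [sub_zero]
      exact ENNReal.ofReal_tsum_of_nonneg (fun k => by positivity) (tl_sum (h1 n) n)

end Pool.Agent.Results.MP_a5725d_an.Characterization
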